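import Pool.Agent.H23.DM.TargetsA

/-!
# (TM) the twelfth moment in the whole conductor: from the classes to the box
-/

set_option autoImplicit false

open NumberField NumberField.InfinitePlace MeasureTheory Set Filter Complex
open scoped nonZeroDivisors ENNReal

namespace Pool.Agent.H81.DM.TM

open Pool.Agent.H25.HK Pool.Agent.H23.LB Pool.Agent.H23.LC
open Pool.Agent.H29.DW (dg Rl lf wv Pos Wg cpar Ci om zs rv Wt)
open Pool.Agent.H31.SW (PP dK)
open Pool.Agent.H29.DW (PrG)
open Pool.Agent.H31.SX (LK)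
open Pool.Agent.H27.TM (Cls Sp1 InT cq)
open Pool.Agent.H23.DM

/-- the exponent of the dyadic interval of `x` -/
private noncomputable def lg (x : ℝ) : ℕ := Nat.log 2 ⌊x⌋₊

private theorem lg_le {x : ℝ} (hx : 1 ≤ x) : (2 : ℝ) ^ lg x ≤ x := by
  have h1 : 1 ≤ ⌊x⌋₊ := Nat.le_floor (by exact_mod_cast hx)
  have h2 : 2 ^ lg x ≤ ⌊x⌋₊ := Nat.pow_log_le_self 2 (by omega)
  calc (2 : ℝ) ^ lg x = ((2 ^ lg x : ℕ) : ℝ) := by push_cast; rfl
    _ ≤ (⌊x⌋₊ : ℝ) := by exact_mod_cast h2
    _ ≤ x := Nat.floor_le (by linarith)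

private theorem lt_lg (x : ℝ) : x < 2 * (2 : ℝ) ^ lg x := by
  have h2 : ⌊x⌋₊ < 2 ^ (lg x + 1) := Nat.lt_pow_succ_log_self (by norm_num) _
  have h3 : (⌊x⌋₊ : ℝ) + 1 ≤ 2 ^ (lg x + 1) := by exact_mod_cast h2
  calc x < (⌊x⌋₊ : ℝ) + 1 := Nat.lt_floor_add_one x
    _ ≤ 2 ^ (lg x + 1) := h3
    _ = 2 * 2 ^ lg x := by ring

private theorem lg_mono {x y : ℝ} (h : x ≤ y) : lg x ≤ lg y :=
  Nat.log_mono_right (Nat.floor_le_floor h)

/-- the number of the dyadic intervals -/
private theorem lg_bound (δ : ℝ) (hδ : 0 < δ) (T : ℝ) (hT : 1 ≤ T) :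
    ((lg (2 * T) + 1 : ℕ) : ℝ) ≤ (2 + 2 / δ) * T ^ δ := by
  have h1 : (2 : ℝ) ^ lg (2 * T) ≤ 2 * T := lg_le (by linarith)
  have h2 : (lg (2 * T) : ℝ) * Real.log 2 ≤ Real.log 2 + Real.log T := by
    rw [← Real.log_mul (by norm_num) (by linarith), ← Real.log_pow]
    exact Real.log_le_log (by positivity) h1
  have h3 : 1 / 2 < Real.log 2 := by
    have := Real.log_two_gt_d9
    linarith
  have h4 : Real.log T ≤ T ^ δ / δ := Real.log_le_rpow_div (by linarith) hδ
  have h5 : 1 ≤ T ^ δ := Real.one_le_rpow hT hδ.le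
  have h6 : 0 ≤ Real.log T := Real.log_nonneg hT
  have h7 : (lg (2 * T) : ℝ) ≤ 1 + 2 * Real.log T := by
    have h8 : (lg (2 * T) : ℝ) * Real.log 2 ≤ (1 + 2 * Real.log T) * Real.log 2 := by
      nlinarith
    exact le_of_mul_le_mul_right h8 (by linarith)
  push_cast
  have h9 : (2 + 2 / δ) * T ^ δ = 2 * T ^ δ + 2 * (T ^ δ / δ) := by ring
  rw [h9]
  linarith

section

variable {K : Type} [Field K] [NumberField K] {f : Ideal (𝓞 K)}

/-- the frequencies are bounded -/
private theorem cq_norm (q : HG K f × ℝ) (v : InfinitePlace K) :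
    ‖cq q v‖ ≤ 2 * |q.2 - q.1.ν v| + |(q.1.k v : ℝ)| := by
  unfold cq cpar
  split_ifs with h
  · rw [Complex.norm_real, Real.norm_eq_abs]
    have h1 := abs_nonneg (q.2 - q.1.ν v)
    have h2 := abs_nonneg (q.1.k v : ℝ)
    linarith
  · refine (norm_add_le _ _).trans ?_
    rw [Complex.norm_real, Real.norm_eq_abs, abs_mul, norm_mul, Complex.norm_I, mul_one,
      Complex.norm_intCast]
    norm_num

/-- the frequencies are real at the real places -/
private theorem cq_real (q : HG K f × ℝ) (v : InfinitePlace K) : Rl (rv v) (cq q v) := by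
  unfold cq cpar Rl rv
  split_ifs with h <;> simp [h]

end

theorem pf_TM (hLT : D_LT) : D_TM := by
  classical
  intro n hn
  obtain ⟨B, hB, hLT1⟩ := hLT n hn
  refine ⟨B, hB, fun ε hε hε1 => ?_⟩
  obtain ⟨C, hC, hLT2⟩ := hLT1 (ε / 2) (by linarith) (by linarith)
  set C₁ : ℝ := 2 + 2 / (ε / 2) with hC₁
  have hC₁1 : 1 ≤ C₁ := by
    have : 0 ≤ 2 / (ε / 2) := by positivity
    rw [hC₁]
    linarith
  refine ⟨C₁ ^ n * C * ((2 : ℝ) ^ n) ^ (2 + ε / 2), by positivity, ?_⟩
  intro K _ _ hK l k hlk Y L hL T S hT hPr hin hsp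
  have hplaces : Fintype.card (InfinitePlace K) ≤ n := by
    have h2 := card_add_two_mul_card_eq_rank K
    have h3 := card_eq_nrRealPlaces_add_nrComplexPlaces K
    omega
  have hmult : ∑ v : InfinitePlace K, v.mult = n := by
    rw [← hK]
    exact sum_mult_eq
  have hD : 0 ≤ dK K * (Nf K l * Nf K k.radical) := by
    unfold dK Nf
    positivity
  have hNk : 1 ≤ Nf K k := by
    unfold Nf
    have h1 : Ideal.absNorm k ≠ 0 := fun h => hlk.k_ne (Ideal.absNorm_eq_zero_iff.1 h)
    exact_mod_cast Nat.one_le_iff_ne_zero.2 h1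
  have hPT : 1 ≤ PP T := by
    unfold PP
    calc (1 : ℝ) = ∏ _v : InfinitePlace K, (1 : ℝ) := by rw [Finset.prod_const_one]
      _ ≤ _ := Finset.prod_le_prod (fun _ _ => zero_le_one) fun v _ => one_le_pow₀ (hT v)
  have hNk0 : 0 < Nf K k := by linarith
  -- the classes
  set a : HG K (l * k) × ℝ → InfinitePlace K → ℕ := fun q v => lg (1 + ‖cq q v‖) with ha
  set P : Finset (InfinitePlace K → ℕ) :=
    Fintype.piFinset (fun v => Finset.range (lg (2 * T v) + 1)) with hP
  have hbound : ∀ q ∈ S, ∀ v, 1 + ‖cq q v‖ ≤ 2 * T v := by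
    intro q hq v
    have h1 := cq_norm q v
    have h2 := hin q hq v
    have h3 := abs_nonneg (q.2 - q.1.ν v)
    have h4 := abs_nonneg (q.1.k v : ℝ)
    linarith [hT v]
  have hmaps : ∀ q ∈ S, a q ∈ P := by
    intro q hq
    rw [hP, Fintype.mem_piFinset]
    intro v
    rw [Finset.mem_range]
    exact Nat.lt_succ_of_le (lg_mono (hbound q hq v))
  rw [← Finset.sum_fiberwise_of_maps_to hmaps]
  have hclass : ∀ b ∈ P, ∑ q ∈ S with a q = b, ‖L q.1 (1 / 2 + q.2 * I)‖ ^ 12 ≤
      C * ((dK K * (Nf K l * Nf K k.radical)) ^ B *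
        (2 ^ n * (Nf K k * PP T)) ^ (2 + ε / 2)) := by
    intro b hb
    have hnn : 0 ≤ C * ((dK K * (Nf K l * Nf K k.radical)) ^ B *
        (2 ^ n * (Nf K k * PP T)) ^ (2 + ε / 2)) := by positivity
    rcases (S.filter (fun q => a q = b)).eq_empty_or_nonempty with he | ⟨q₀, hq₀⟩
    · rw [he, Finset.sum_empty]
      exact hnn
    have hq₀S := (Finset.mem_filter.1 hq₀).1
    have hq₀b := (Finset.mem_filter.1 hq₀).2
    have h1 := hLT2 K hK l k hlk Y L hL (fun v => (2 : ℝ) ^ b v) (S.filter fun q => a q = b)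
      (fun v => one_le_pow₀ (by norm_num)) (fun q hq => hPr q (Finset.mem_filter.1 hq).1) ?_ ?_
    · refine h1.trans ?_
      apply mul_le_mul_of_nonneg_left _ hC
      apply mul_le_mul_of_nonneg_left _ (by positivity)
      apply Real.rpow_le_rpow _ _ (by linarith)
      · unfold PP
        positivity
      · rw [mul_left_comm]
        apply mul_le_mul_of_nonneg_left _ hNk0.le
        unfold PP
        calc ∏ v : InfinitePlace K, ((2 : ℝ) ^ b v) ^ v.mult
            ≤ ∏ v : InfinitePlace K, (2 * T v) ^ v.mult := by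
              apply Finset.prod_le_prod (fun v _ => by positivity)
              intro v _
              apply pow_le_pow_left₀ (by positivity)
              rw [← hq₀b]
              refine (lg_le ?_).trans (hbound q₀ hq₀S v)
              have := norm_nonneg (cq q₀ v)
              linarith
          _ = 2 ^ n * ∏ v : InfinitePlace K, T v ^ v.mult := by
              simp_rw [mul_pow]
              rw [Finset.prod_mul_distrib, Finset.prod_pow_eq_pow_sum, hmult]
    · intro q hq
      have hqb := (Finset.mem_filter.1 hq).2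
      have hnn : ∀ v, 1 ≤ 1 + ‖cq q v‖ := fun v => by
        have := norm_nonneg (cq q v)
        linarith
      refine ⟨fun v => one_le_pow₀ (by norm_num), fun v => ?_, fun v => ?_, cq_real q⟩
      · rw [← hqb]
        exact lg_le (hnn v)
      · rw [← hqb]
        exact (lt_lg _).le
    · intro p hp q hq
      exact hsp p (Finset.mem_filter.1 hp).1 q (Finset.mem_filter.1 hq).1
  refine (Finset.sum_le_card_nsmul _ _ _ hclass).trans ?_
  rw [nsmul_eq_mul]
  have hcard : (P.card : ℝ) ≤ C₁ ^ n * PP T ^ (ε / 2) := by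
    rw [hP, Fintype.card_piFinset]
    push_cast
    simp only [Finset.card_range]
    calc ∏ v : InfinitePlace K, ((lg (2 * T v) + 1 : ℕ) : ℝ)
        ≤ ∏ v : InfinitePlace K, (C₁ * (T v ^ v.mult) ^ (ε / 2)) := by
          apply Finset.prod_le_prod (fun v _ => by positivity)
          intro v _
          refine (lg_bound (ε / 2) (by linarith) (T v) (hT v)).trans ?_
          apply mul_le_mul_of_nonneg_left _ (by positivity)
          apply Real.rpow_le_rpow (by linarith [hT v]) _ (by linarith)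
          exact le_self_pow₀ (hT v) (by
            have := v.mult_pos
            omega)
      _ = C₁ ^ Fintype.card (InfinitePlace K) * PP T ^ (ε / 2) := by
          rw [Finset.prod_mul_distrib, Finset.prod_const, Finset.card_univ]
          congr 1
          unfold PP
          rw [Real.finsetProd_rpow _ _ (fun v _ => by
            have := hT v
            positivity)]
      _ ≤ C₁ ^ n * PP T ^ (ε / 2) := by
          apply mul_le_mul_of_nonneg_right _ (by positivity)
          exact pow_le_pow_right₀ hC₁1 hplaces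
  have hPT0 : 0 < PP T := by linarith
  have hQ0 : 0 < Nf K k * PP T := mul_pos hNk0 hPT0
  have hPQ : PP T ^ (ε / 2) ≤ (Nf K k * PP T) ^ (ε / 2) :=
    Real.rpow_le_rpow hPT0.le (le_mul_of_one_le_left hPT0.le hNk) (by linarith)
  calc (P.card : ℝ) * (C * ((dK K * (Nf K l * Nf K k.radical)) ^ B *
          (2 ^ n * (Nf K k * PP T)) ^ (2 + ε / 2)))
      ≤ (C₁ ^ n * (Nf K k * PP T) ^ (ε / 2)) * (C * ((dK K * (Nf K l * Nf K k.radical)) ^ B *
          (2 ^ n * (Nf K k * PP T)) ^ (2 + ε / 2))) := by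
        apply mul_le_mul_of_nonneg_right
          (hcard.trans (mul_le_mul_of_nonneg_left hPQ (by positivity)))
        positivity
    _ = C₁ ^ n * C * ((2 : ℝ) ^ n) ^ (2 + ε / 2) * ((dK K * (Nf K l * Nf K k.radical)) ^ B *
          ((Nf K k * PP T) ^ (ε / 2) * (Nf K k * PP T) ^ (2 + ε / 2))) := by
        rw [Real.mul_rpow (by positivity) hQ0.le]
        ring
    _ = _ := by
        have h1 : ε / 2 + (2 + ε / 2) = 2 + ε := by ring
        rw [← Real.rpow_add hQ0, h1]

end Pool.Agent.H81.DM.TM
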